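import Mathlib
import Pool.Agent.Results.MP_0cafb6_an.ExplicitImmersion

/-!
Holomorphic immersions in equal dimension for the hypersurfaces `x p(w) + q(w) = c` with `p`, `q`
entire and quasi-homogeneous of the same weight, and for the groups `SL(n, ℂ)`.
-/

set_option autoImplicit false

namespace Pool.Agent.Results.MP_fcd94d_an.HomogeneousHypersurfaces

theorem hypersurface (m : ℕ) (p q : (Fin m → ℂ) → ℂ) (hp : Differentiable ℂ p)
    (hq : Differentiable ℂ q) (a : Fin m → ℂ) (d c : ℂ) (hd : d ≠ 0) (hc : c ≠ 0)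
    (hEp : ∀ w : Fin m → ℂ, fderiv ℂ p w (fun i => a i * w i) = d * p w)
    (hEq : ∀ w : Fin m → ℂ, fderiv ℂ q w (fun i => a i * w i) = d * q w) :
    (∀ z : ℂ × (Fin m → ℂ), z.1 * p z.2 + q z.2 = c →
        fderiv ℂ (fun y : ℂ × (Fin m → ℂ) => y.1 * p y.2 + q y.2) z ≠ 0) ∧
    ∃ f : ℂ × (Fin m → ℂ) → (Fin m → ℂ), Differentiable ℂ f ∧
      ∀ z : ℂ × (Fin m → ℂ), z.1 * p z.2 + q z.2 = c → ∀ ζ : ℂ × (Fin m → ℂ),
        fderiv ℂ (fun y : ℂ × (Fin m → ℂ) => y.1 * p y.2 + q y.2) z ζ = 0 →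
        fderiv ℂ f z ζ = 0 → ζ = 0 := by
  -- derivative of the defining function
  have hh : ∀ z ζ : ℂ × (Fin m → ℂ),
      fderiv ℂ (fun y : ℂ × (Fin m → ℂ) => y.1 * p y.2 + q y.2) z ζ
        = z.1 * fderiv ℂ p z.2 ζ.2 + p z.2 * ζ.1 + fderiv ℂ q z.2 ζ.2 := by
    intro z ζ
    have h1 : HasFDerivAt (fun y : ℂ × (Fin m → ℂ) => y.1)
        (ContinuousLinearMap.fst ℂ ℂ (Fin m → ℂ)) z := hasFDerivAt_fst
    have h2 : HasFDerivAt (fun y : ℂ × (Fin m → ℂ) => p y.2)
        ((fderiv ℂ p z.2).comp (ContinuousLinearMap.snd ℂ ℂ (Fin m → ℂ))) z :=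
      (hp z.2).hasFDerivAt.comp z hasFDerivAt_snd
    have h3 : HasFDerivAt (fun y : ℂ × (Fin m → ℂ) => q y.2)
        ((fderiv ℂ q z.2).comp (ContinuousLinearMap.snd ℂ ℂ (Fin m → ℂ))) z :=
      (hq z.2).hasFDerivAt.comp z hasFDerivAt_snd
    have h4 := ((h1.mul h2).add h3).fderiv
    have h5 : fderiv ℂ (fun y : ℂ × (Fin m → ℂ) => y.1 * p y.2 + q y.2) z = _ := h4
    rw [h5]
    simp [smul_eq_mul]
  obtain ⟨G, G', hG, hGG⟩ := Pool.Agent.Results.MP_0cafb6_an.ExplicitImmersion.exists_G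
  constructor
  · intro z hz h0
    have h1 := hh z (0, fun i => a i * z.2 i)
    rw [h0] at h1
    simp only [zero_apply, mul_zero, add_zero] at h1
    rw [hEp, hEq] at h1
    have h2 : d * c = 0 := by
      rw [← hz]
      linear_combination -h1
    exact (mul_ne_zero hd hc) h2
  · -- the exponent
    let s : ℂ × (Fin m → ℂ) → ℂ := fun z => -(1 / (d * c)) * z.1 + (1 / d) * G (p z.2)
    let S : ∀ _ : ℂ × (Fin m → ℂ), (ℂ × (Fin m → ℂ)) →L[ℂ] ℂ := fun z =>
      (-(1 / (d * c))) • (ContinuousLinearMap.fst ℂ ℂ (Fin m → ℂ)) +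
        (1 / d) • (G' (p z.2) • ((fderiv ℂ p z.2).comp (ContinuousLinearMap.snd ℂ ℂ (Fin m → ℂ))))
    have hs : ∀ z, HasFDerivAt s (S z) z := by
      intro z
      have h1 : HasFDerivAt (fun y : ℂ × (Fin m → ℂ) => y.1)
          (ContinuousLinearMap.fst ℂ ℂ (Fin m → ℂ)) z := hasFDerivAt_fst
      have h2 : HasFDerivAt (fun y : ℂ × (Fin m → ℂ) => p y.2)
          ((fderiv ℂ p z.2).comp (ContinuousLinearMap.snd ℂ ℂ (Fin m → ℂ))) z :=
        (hp z.2).hasFDerivAt.comp z hasFDerivAt_snd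
      have h3 : HasFDerivAt (fun y : ℂ × (Fin m → ℂ) => G (p y.2))
          (G' (p z.2) • ((fderiv ℂ p z.2).comp (ContinuousLinearMap.snd ℂ ℂ (Fin m → ℂ)))) z :=
        (hG (p z.2)).comp_hasFDerivAt z h2
      exact (h1.const_mul _).add (h3.const_mul _)
    have hS : ∀ z ζ : ℂ × (Fin m → ℂ), S z ζ
        = -(1 / (d * c)) * ζ.1 + (1 / d) * (G' (p z.2) * fderiv ℂ p z.2 ζ.2) := by
      intro z ζ
      simp [S, smul_eq_mul]
    let f : ℂ × (Fin m → ℂ) → (Fin m → ℂ) := fun z i => Complex.exp (a i * s z) * z.2 i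
    let D : ∀ _ : ℂ × (Fin m → ℂ), Fin m → ((ℂ × (Fin m → ℂ)) →L[ℂ] ℂ) := fun z i =>
      Complex.exp (a i * s z) • ((ContinuousLinearMap.proj i).comp
        (ContinuousLinearMap.snd ℂ ℂ (Fin m → ℂ))) +
      z.2 i • (Complex.exp (a i * s z) • (a i • S z))
    have hf : ∀ z, HasFDerivAt f (ContinuousLinearMap.pi (D z)) z := by
      intro z
      rw [hasFDerivAt_pi]
      intro i
      have h1 : HasFDerivAt (fun y : ℂ × (Fin m → ℂ) => y.2 i)
          ((ContinuousLinearMap.proj i).comp (ContinuousLinearMap.snd ℂ ℂ (Fin m → ℂ))) z :=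
        ((ContinuousLinearMap.proj (R := ℂ) (φ := fun _ : Fin m => ℂ) i).comp
          (ContinuousLinearMap.snd ℂ ℂ (Fin m → ℂ))).hasFDerivAt
      have h2 : HasFDerivAt (fun y => Complex.exp (a i * s y))
          (Complex.exp (a i * s z) • (a i • S z)) z := ((hs z).const_mul (a i)).cexp
      exact h2.mul h1
    refine ⟨f, fun z => (hf z).differentiableAt, ?_⟩
    intro z hz ζ h1 h2
    rw [hh] at h1
    rw [(hf z).fderiv] at h2
    set σ : ℂ := S z ζ with hσ
    have h3 : ∀ i, ζ.2 i = -(a i * z.2 i * σ) := by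
      intro i
      have h4 : D z i ζ = 0 := congrFun h2 i
      have h5 : D z i ζ = Complex.exp (a i * s z) * (ζ.2 i + a i * z.2 i * σ) := by
        simp only [D, add_apply, smul_apply,
          ContinuousLinearMap.comp_apply, ContinuousLinearMap.proj_apply,
          ContinuousLinearMap.coe_snd', smul_eq_mul]
        rw [← hσ]
        ring
      rw [h5] at h4
      have h6 := (mul_eq_zero.1 h4).resolve_left (Complex.exp_ne_zero _)
      linear_combination h6
    have h7 : ζ.2 = (-σ) • (fun i => a i * z.2 i) := by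
      funext i
      rw [h3 i, Pi.smul_apply, smul_eq_mul]
      ring
    have h8 : fderiv ℂ p z.2 ζ.2 = -σ * (d * p z.2) := by
      rw [h7, map_smul, hEp, smul_eq_mul]
    have h9 : fderiv ℂ q z.2 ζ.2 = -σ * (d * q z.2) := by
      rw [h7, map_smul, hEq, smul_eq_mul]
    have h10 : p z.2 * ζ.1 = σ * (d * c) := by
      rw [h8, h9] at h1
      rw [← hz]
      linear_combination h1
    have h11 : σ = -(1 / (d * c)) * ζ.1 + (1 / d) * (G' (p z.2) * (-σ * (d * p z.2))) := by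
      rw [← h8]
      exact hS z ζ
    have hdc : d * c ≠ 0 := mul_ne_zero hd hc
    have h12 : σ * Complex.exp (p z.2) = 0 := by
      have h13 := hGG (p z.2)
      have h14 : σ * p z.2 = -σ - σ * (p z.2 ^ 2 * G' (p z.2)) := by
        have h15 : σ * p z.2 = -(1 / (d * c)) * (p z.2 * ζ.1)
            + (1 / d) * (G' (p z.2) * (-σ * (d * p z.2))) * p z.2 := by
          linear_combination (p z.2) * h11
        rw [h10] at h15
        rw [h15]
        field_simp
        ring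
      rw [h13] at h14
      linear_combination h14
    have hσ0 : σ = 0 := (mul_eq_zero.1 h12).resolve_right (Complex.exp_ne_zero _)
    have h16 : ζ.1 = 0 := by
      rw [hσ0] at h11
      have h17 : (1 / (d * c)) * ζ.1 = 0 := by linear_combination h11
      exact (mul_eq_zero.1 h17).resolve_left (one_div_ne_zero hdc)
    have h18 : ζ.2 = 0 := by
      rw [h7, hσ0, neg_zero, zero_smul]
    exact Prod.ext h16 h18

/-- (1) Let `p`, `q` be entire functions on `ℂ^m` that are quasi-homogeneous of the same weight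
`d ≠ 0` for some weights `a i` (Euler's relations `Σ a_i w_i ∂p/∂w_i = d p`, same for `q`), and
`c ≠ 0`. Then `X = {(x, w) : x p(w) + q(w) = c}` is a closed complex submanifold of dimension `m`
of `ℂ^(m+1)` (the derivative of the defining function does not vanish on it), and some entire map
`f : ℂ^(m+1) → ℂ^m` restricts to a holomorphic immersion `X → ℂ^m`.
(2) For `n ≥ 2` some entire map on the `n × n` matrices restricts to a holomorphic immersion
`SL(n, ℂ) → ℂ^(n²-1)`. -/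
theorem result :
    (∀ (m : ℕ) (p q : (Fin m → ℂ) → ℂ), Differentiable ℂ p → Differentiable ℂ q →
      ∀ (a : Fin m → ℂ) (d c : ℂ), d ≠ 0 → c ≠ 0 →
      (∀ w : Fin m → ℂ, fderiv ℂ p w (fun i => a i * w i) = d * p w) →
      (∀ w : Fin m → ℂ, fderiv ℂ q w (fun i => a i * w i) = d * q w) →
      (∀ z : ℂ × (Fin m → ℂ), z.1 * p z.2 + q z.2 = c →
        fderiv ℂ (fun y : ℂ × (Fin m → ℂ) => y.1 * p y.2 + q y.2) z ≠ 0) ∧
      ∃ f : ℂ × (Fin m → ℂ) → (Fin m → ℂ), Differentiable ℂ f ∧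
        ∀ z : ℂ × (Fin m → ℂ), z.1 * p z.2 + q z.2 = c → ∀ ζ : ℂ × (Fin m → ℂ),
          fderiv ℂ (fun y : ℂ × (Fin m → ℂ) => y.1 * p y.2 + q y.2) z ζ = 0 →
          fderiv ℂ f z ζ = 0 → ζ = 0) ∧
    (∀ n : ℕ, 2 ≤ n →
      ∃ f : (Fin n → Fin n → ℂ) → (Fin (n ^ 2 - 1) → ℂ), Differentiable ℂ f ∧
        ∀ A : Fin n → Fin n → ℂ, (Matrix.of A).det = 1 →
          ∀ B : Fin n → Fin n → ℂ,
            fderiv ℂ (fun M : Fin n → Fin n → ℂ => (Matrix.of M).det) A B = 0 →
            fderiv ℂ f A B = 0 → B = 0) :=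
  ⟨fun m p q hp hq a d c hd hc hEp hEq => hypersurface m p q hp hq a d c hd hc hEp hEq,
    fun n hn => Pool.Agent.Results.MP_0cafb6_an.ExplicitImmersion.result n hn⟩

end Pool.Agent.Results.MP_fcd94d_an.HomogeneousHypersurfaces
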